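import Mathlib
import Pool.Agent.H.MP_5ab9c0_an.A

namespace Pool.Agent.Results.MP_c65f17_an.NoSup

open Filter Topology Set Pool.Agent.H.MP_5ab9c0_an

theorem result : ∃ (X : Type) (_ : NormedAddCommGroup X) (_ : NormedSpace ℝ X) (_ : CompleteSpace X)
    (_ : PartialOrder X), IsOrderedAddMonoid X ∧ PosSMulMono ℝ X ∧ IsClosed {x : X | 0 ≤ x} ∧
    (∃ C : ℝ, 1 ≤ C ∧ ∀ x y : X, 0 ≤ x → x ≤ y → ‖x‖ ≤ C * ‖y‖) ∧
    ∃ x : ℕ → X, Monotone x ∧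
      (∃ u ∈ upperBounds (range x), ∀ v ∈ upperBounds (range x), v ≤ u → v = u) ∧
      ¬ ∃ s, IsLUB (range x) s :=
  ⟨X, _, _, inferInstance, _, inferInstance, inferInstance, closed, ⟨1, le_rfl, normal⟩,
    seq, seq_mono, ⟨top 0, top_ub (by norm_num), fun _ => top_min⟩, fun ⟨s, h⟩ => no_lub s h⟩

end Pool.Agent.Results.MP_c65f17_an.NoSup
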